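import Pool.Agent.H17.FD.F1C

/-! Row F1A: averages of the autocorrelation. -/

namespace Pool.FD
open Finset MeasureTheory

/-- value of the row at an integer -/
noncomputable def RW (T : ℕ) (om : ℕ → ℕ → ℝ) (V : ℕ) (n : ℤ) : ℝ := om V (n % (T:ℤ)).toNat

lemma h2g {g : ℕ} (hg : 1 ≤ g) : (0:ℝ) < 1 / 2 ^ g ∧ (1:ℝ) / 2 ^ g ≤ 1 / 2 := by
  refine ⟨by positivity, ?_⟩
  apply one_div_le_one_div_of_le (by norm_num)
  calc (2:ℝ) = 2 ^ 1 := by norm_num
    _ ≤ 2 ^ g := pow_le_pow_right₀ (by norm_num) hg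

lemma mu_nonneg {g : ℕ} (hg : 1 ≤ g) : 0 ≤ mu g := by
  have h := (h2g hg).2
  unfold mu
  have : (2:ℝ) / 2 ^ g = 2 * (1 / 2 ^ g) := by ring
  rw [this]; linarith

lemma mu_le_one (g : ℕ) : mu g ≤ 1 := by
  unfold mu
  have : (0:ℝ) ≤ 2 / 2 ^ g := by positivity
  linarith

lemma int_unit {g : ℕ} (hg : 1 ≤ g) (T : ℕ) (om : ℕ → ℕ → ℝ) (V : ℕ) (n : ℤ) :
    ∫ u in (n:ℝ)..((n:ℝ) + 1), gm g T om V u = mu g * RW T om V n := by
  obtain ⟨h0, h1⟩ := h2g hg
  rw [intervalIntegral.integral_of_le (by linarith), ← integral_Ico_eq_integral_Ioc]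
  have e1 : Set.EqOn (gm g T om V)
      ((Set.Icc ((n:ℝ) + 1 / 2 ^ g) ((n:ℝ) + (1 - 1 / 2 ^ g))).indicator fun _ => RW T om V n)
      (Set.Ico (n:ℝ) ((n:ℝ) + 1)) := by
    intro u hu
    have hf : ⌊u⌋ = n := Int.floor_eq_iff.2 ⟨hu.1, hu.2⟩
    have hfr : Int.fract u = u - n := by rw [Int.fract, hf]
    have hm : mar g u ↔ u ∈ Set.Icc ((n:ℝ) + 1 / 2 ^ g) ((n:ℝ) + (1 - 1 / 2 ^ g)) := by
      unfold mar
      rw [hfr, Set.mem_Icc]
      constructor
      · rintro ⟨a, b⟩; exact ⟨by linarith, by linarith⟩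
      · rintro ⟨a, b⟩; exact ⟨by linarith, by linarith⟩
    unfold gm
    by_cases h : mar g u
    · rw [if_pos h, Set.indicator_of_mem (hm.1 h)]
      unfold fl RW
      rw [hf]
    · rw [if_neg h, Set.indicator_of_notMem (fun h' => h (hm.2 h'))]
  rw [setIntegral_congr_fun measurableSet_Ico e1, setIntegral_indicator measurableSet_Icc]
  have e2 : Set.Ico (n:ℝ) ((n:ℝ) + 1) ∩ Set.Icc ((n:ℝ) + 1 / 2 ^ g) ((n:ℝ) + (1 - 1 / 2 ^ g)) =
      Set.Icc ((n:ℝ) + 1 / 2 ^ g) ((n:ℝ) + (1 - 1 / 2 ^ g)) := by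
    apply Set.inter_eq_right.2
    intro x hx
    exact ⟨by linarith [hx.1], by linarith [hx.2]⟩
  rw [e2, setIntegral_const, Real.volume_real_Icc_of_le (by linarith), smul_eq_mul]
  unfold mu
  ring

lemma int_cells {g T : ℕ} (hg : 1 ≤ g) (hT : 0 < T) (om : ℕ → ℕ → ℝ) (V : ℕ) (a : ℤ) (N : ℕ) :
    ∫ u in (a:ℝ)..((a:ℝ) + N), gm g T om V u = mu g * ∑ z ∈ range N, RW T om V (a + z) := by
  have h := intervalIntegral.sum_integral_adjacent_intervals (f := gm g T om V) (μ := volume)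
    (a := fun k : ℕ => (a:ℝ) + k) (n := N) (fun k _ => gm_ii g hT om V _ _)
  have e : ∀ k ∈ range N, ∫ x in (fun k : ℕ => (a:ℝ) + k) k..(fun k : ℕ => (a:ℝ) + k) (k + 1),
      gm g T om V x = mu g * RW T om V (a + k) := by
    intro k _
    have := int_unit hg T om V (a + k)
    simp only
    rw [← this]
    push_cast
    rw [add_assoc]
  rw [sum_congr rfl e] at h
  simp only [Nat.cast_zero, add_zero] at h
  rw [← h, mul_sum]

lemma int_le_of_cells {g T : ℕ} (hg : 1 ≤ g) (hT : 0 < T) (om : ℕ → ℕ → ℝ)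
    (hom : ∀ a b, 0 ≤ om a b) (V s : ℕ) (hs : 0 < s) (K : ℝ) (hK0 : 0 ≤ K)
    (hK : ∀ a : ℤ, ∑ z ∈ range s, RW T om V (a * s + z) ≤ s * K) (u D : ℝ) (hD : 0 ≤ D) :
    ∫ v in u..(u + D), gm g T om V v ≤ (D + 2 * s) * K := by
  have hs' : (0:ℝ) < s := by exact_mod_cast hs
  set a : ℤ := ⌊u / s⌋ with ha
  set N : ℕ := ⌈D / s⌉₊ + 1 with hN
  have h1 : (a:ℝ) * s ≤ u := by
    have := Int.floor_le (u / s)
    rw [le_div_iff₀ hs'] at this
    exact this
  have h2 : u < ((a:ℝ) + 1) * s := by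
    have := Int.lt_floor_add_one (u / s)
    rw [div_lt_iff₀ hs'] at this
    exact this
  have h3 : D ≤ (⌈D / s⌉₊ : ℝ) * s := by
    have := Nat.le_ceil (D / s)
    rw [div_le_iff₀ hs'] at this
    exact this
  have h4 : (⌈D / s⌉₊ : ℝ) * s ≤ D + s := by
    have := (Nat.ceil_lt_add_one (div_nonneg hD hs'.le)).le
    have h5 := mul_le_mul_of_nonneg_right this hs'.le
    have h6 : (D / s + 1) * s = D + s := by field_simp
    linarith
  have h5 : ∫ v in u..(u + D), gm g T om V v ≤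
      ∫ v in ((a:ℝ) * s)..((a:ℝ) * s + N * s), gm g T om V v := by
    apply intervalIntegral.integral_mono_interval h1 (by linarith)
    · rw [hN]; push_cast; nlinarith
    · exact Filter.Eventually.of_forall fun x => gm_nonneg g T om hom V x
    · exact gm_ii g hT om V _ _
  have h6 := intervalIntegral.sum_integral_adjacent_intervals (f := gm g T om V) (μ := volume)
    (a := fun k : ℕ => (a:ℝ) * s + k * s) (n := N) (fun k _ => gm_ii g hT om V _ _)
  have h7 : ∀ k ∈ range N, ∫ x in (fun k : ℕ => (a:ℝ) * s + k * s) k..(fun k : ℕ =>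
      (a:ℝ) * s + k * s) (k + 1), gm g T om V x ≤ s * K := by
    intro k _
    have e1 := int_cells hg hT om V ((a + k) * s) s
    have e2 : ∫ x in (fun k : ℕ => (a:ℝ) * s + k * s) k..(fun k : ℕ =>
      (a:ℝ) * s + k * s) (k + 1), gm g T om V x = mu g * ∑ z ∈ range s, RW T om V ((a + k) * s + z) := by
      rw [← e1]
      simp only
      push_cast
      ring_nf
    rw [e2]
    have e3 := hK (a + k)
    have e4 : 0 ≤ ∑ z ∈ range s, RW T om V ((a + k) * s + z) :=
      sum_nonneg fun z _ => hom _ _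
    calc mu g * ∑ z ∈ range s, RW T om V ((a + k) * s + z)
        ≤ 1 * ∑ z ∈ range s, RW T om V ((a + k) * s + z) :=
          mul_le_mul_of_nonneg_right (mu_le_one g) e4
      _ ≤ s * K := by rw [one_mul]; exact e3
  simp only [Nat.cast_zero, zero_mul, add_zero] at h6
  rw [← h6] at h5
  refine h5.trans ((sum_le_sum h7).trans ?_)
  rw [sum_const, card_range, nsmul_eq_mul, hN]
  push_cast
  have h8 : ((⌈D / s⌉₊ : ℝ) + 1) * s ≤ D + 2 * s := by linarith
  calc ((⌈D / s⌉₊ : ℝ) + 1) * (s * K) = (((⌈D / s⌉₊ : ℝ) + 1) * s) * K := by ring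
    _ ≤ (D + 2 * s) * K := mul_le_mul_of_nonneg_right h8 hK0

lemma meas_uncurry (g T : ℕ) (om : ℕ → ℕ → ℝ) (V : ℕ) (D : ℝ) :
    Measurable (Function.uncurry fun y u : ℝ => gm g T om V u * gm g T om V (u + y * D)) := by
  refine ((gm_meas g T om V).comp measurable_snd).mul ((gm_meas g T om V).comp ?_)
  exact measurable_snd.add (measurable_fst.mul_const D)

lemma CV_avg {g T : ℕ} (hT : 0 < T) (om : ℕ → ℕ → ℝ)
    (hom : ∀ a b, 0 ≤ om a b) (V : ℕ) (D : ℝ) (hD : 0 < D) (K : ℝ)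
    (hK : ∀ u, ∫ v in u..(u + D), gm g T om V v ≤ D * K) :
    ∫ y in (0:ℝ)..1, CV g T om V (y * D) ≤ (∫ u in (0:ℝ)..T, gm g T om V u) / T * K := by
  have hT' : (0:ℝ) < T := by exact_mod_cast hT
  unfold CV
  rw [intervalIntegral.integral_div]
  have hsw : ∫ y in (0:ℝ)..1, ∫ u in (0:ℝ)..T, gm g T om V u * gm g T om V (u + y * D) =
      ∫ u in (0:ℝ)..T, ∫ y in (0:ℝ)..1, gm g T om V u * gm g T om V (u + y * D) := by
    apply intervalIntegral_intervalIntegral_swap
    apply Measure.integrableOn_of_bounded (M := MB T om V * MB T om V)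
    · rw [Measure.volume_eq_prod, Measure.prod_prod]
      simp [Set.uIoc_of_le, hT'.le]
    · exact (meas_uncurry g T om V D).aestronglyMeasurable
    · refine Filter.Eventually.of_forall fun p => ?_
      show ‖gm g T om V p.2 * gm g T om V (p.2 + p.1 * D)‖ ≤ _
      rw [Real.norm_eq_abs, abs_mul]
      exact mul_le_mul (gm_abs_le g hT om V _) (gm_abs_le g hT om V _) (abs_nonneg _)
        (MB_nonneg _ _ _)
  rw [hsw, div_mul_eq_mul_div, div_le_div_iff_of_pos_right hT']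
  have hin : ∀ u, ∫ y in (0:ℝ)..1, gm g T om V u * gm g T om V (u + y * D) =
      gm g T om V u * (D⁻¹ * ∫ v in u..(u + D), gm g T om V v) := by
    intro u
    rw [intervalIntegral.integral_const_mul]
    congr 1
    have := intervalIntegral.integral_comp_add_mul (a := 0) (b := 1) (gm g T om V) hD.ne' u
    simp only [mul_zero, add_zero, mul_one, smul_eq_mul] at this
    rw [← this]
    simp only [mul_comm]
  simp only [hin]
  rw [← intervalIntegral.integral_mul_const]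
  have hle : ∀ u, gm g T om V u * (D⁻¹ * ∫ v in u..(u + D), gm g T om V v) ≤
      gm g T om V u * K := by
    intro u
    apply mul_le_mul_of_nonneg_left _ (gm_nonneg g T om hom V u)
    rw [inv_mul_le_iff₀ hD]
    exact hK u
  apply intervalIntegral.integral_mono_on hT'.le _ ((gm_ii g hT om V _ _).mul_const K)
    (fun u _ => hle u)
  -- integrability
  have hc : Continuous fun u : ℝ => D⁻¹ * ∫ v in u..(u + D), gm g T om V v := by
    have h1 : Continuous fun b : ℝ => ∫ v in (0:ℝ)..b, gm g T om V v :=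
      intervalIntegral.continuous_primitive (fun a b => gm_ii g hT om V a b) 0
    have h2 : (fun u : ℝ => D⁻¹ * ∫ v in u..(u + D), gm g T om V v) = fun u : ℝ =>
        D⁻¹ * ((∫ v in (0:ℝ)..(u + D), gm g T om V v) - ∫ v in (0:ℝ)..u, gm g T om V v) := by
      funext u
      rw [intervalIntegral.integral_interval_sub_left (gm_ii g hT om V _ _) (gm_ii g hT om V _ _)]
    rw [h2]
    exact continuous_const.mul ((h1.comp (by fun_prop)).sub h1)
  exact (gm_ii g hT om V _ _).mul_continuousOn hc.continuousOn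

lemma RW_sum {T : ℕ} (om : ℕ → ℕ → ℝ) (V : ℕ) :
    ∑ z ∈ range T, RW T om V ((0:ℤ) + z) = ∑ a ∈ range T, om V a := by
  apply sum_congr rfl
  intro z hz
  unfold RW
  rw [zero_add]
  congr 1
  have h1 : (z:ℤ) < (T:ℤ) := by exact_mod_cast mem_range.1 hz
  rw [Int.emod_eq_of_lt (Int.natCast_nonneg z) h1]; simp

lemma int_full {g T : ℕ} (hg : 1 ≤ g) (hT : 0 < T) (om : ℕ → ℕ → ℝ) (V : ℕ)
    (h1 : ∑ a ∈ range T, om V a = T) : ∫ u in (0:ℝ)..T, gm g T om V u = T * mu g := by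
  have h := int_cells hg hT om V 0 T
  rw [RW_sum, h1] at h
  simp only [Int.cast_zero, zero_add] at h
  rw [h]; ring

lemma gm_perS {g T S : ℕ} (hT : 0 < T) (om : ℕ → ℕ → ℝ) (V : ℕ)
    (hS : ∀ a < T, om V ((a + S) % T) = om V a) : Function.Periodic (gm g T om V) (S:ℝ) := by
  intro x
  unfold gm
  rw [propext (mar_add_nat g x S)]
  have : om V (fl T (x + S)) = om V (fl T x) := by
    rw [← hS _ (fl_lt' hT x)]
    congr 1
    unfold fl
    rw [Int.floor_add_natCast]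
    have h0 := Int.emod_nonneg ⌊x⌋ (by exact_mod_cast hT.ne' : (T:ℤ) ≠ 0)
    have h1 := Int.emod_nonneg (⌊x⌋ + S) (by exact_mod_cast hT.ne' : (T:ℤ) ≠ 0)
    zify
    rw [Int.toNat_of_nonneg h0, Int.toNat_of_nonneg h1]
    simp
  rw [this]

lemma RW_cell {q t i V : ℕ} (hq : 2 ≤ q) (hi : i ≤ t) (om : ℕ → ℕ → ℝ) (a : ℤ) :
    ∃ a' < q ^ i, ∑ z ∈ range (q ^ (t - i)), RW (q ^ t) om V (a * (q ^ (t - i) : ℕ) + z) =
      ∑ z ∈ range (q ^ (t - i)), om V (a' * q ^ (t - i) + z) := by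
  have hqi : (0:ℤ) < (q ^ i : ℕ) := by exact_mod_cast Nat.pos_of_ne_zero (by positivity)
  refine ⟨(a % ((q ^ i : ℕ):ℤ)).toNat, ?_, ?_⟩
  · have h1 := Int.emod_lt_of_pos a hqi
    have h0 := Int.emod_nonneg a hqi.ne'
    omega
  · apply sum_congr rfl
    intro z hz
    unfold RW
    congr 1
    have h0 := Int.emod_nonneg a hqi.ne'
    have hT : ((q ^ t : ℕ):ℤ) = ((q ^ i : ℕ):ℤ) * ((q ^ (t - i) : ℕ):ℤ) := by
      rw [← Nat.cast_mul, ← pow_add, Nat.add_sub_cancel' hi]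
    have hz' : (z:ℤ) < (q ^ (t - i) : ℕ) := by exact_mod_cast mem_range.1 hz
    have hz0 : (0:ℤ) ≤ z := Int.natCast_nonneg z
    have hmod : (a * (q ^ (t - i) : ℕ) + z) % ((q ^ t : ℕ):ℤ) =
        (a % ((q ^ i : ℕ):ℤ)) * (q ^ (t - i) : ℕ) + z := by
      have hlt := Int.emod_lt_of_pos a hqi
      have e : a * (q ^ (t - i) : ℕ) + z = (a % ((q ^ i : ℕ):ℤ)) * (q ^ (t - i) : ℕ) + z +
          ((q ^ t : ℕ):ℤ) * (a / ((q ^ i : ℕ):ℤ)) := by
        have := Int.emod_add_mul_ediv a ((q ^ i : ℕ):ℤ)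
        rw [hT]
        linear_combination -((q ^ (t - i) : ℕ):ℤ) * this
      rw [e, Int.add_mul_emod_self_left]
      apply Int.emod_eq_of_lt
      · positivity
      · rw [hT]
        nlinarith
    rw [hmod]
    obtain ⟨b, hb⟩ := Int.eq_ofNat_of_zero_le h0
    rw [hb, Int.toNat_natCast]
    have : (b:ℤ) * ((q ^ (t - i) : ℕ):ℤ) + (z:ℤ) = ((b * q ^ (t - i) + z : ℕ):ℤ) := by push_cast; ring
    rw [this, Int.toNat_natCast]

/-- row F1A -/
theorem f1a : F1AStmt := by
  intro g q t t1 kap C1 om hq ht1 hg hkap hC1 hom hsum hper hreg V hV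
  have hT : 0 < q ^ t := by positivity
  have hg1 : 1 ≤ g := by omega
  have hq1 : (1:ℝ) ≤ q := by exact_mod_cast (by omega : 1 ≤ q)
  have hq0 : (0:ℝ) < q := by linarith
  have hS : 0 < q ^ (t - t1) := by positivity
  have hfull : ∫ u in (0:ℝ)..((q ^ t : ℕ):ℝ), gm g (q ^ t) om V u = ((q ^ t : ℕ):ℝ) * mu g :=
    int_full hg1 hT om V (by push_cast; exact hsum V hV)
  have hT' : (0:ℝ) < ((q ^ t : ℕ):ℝ) := by exact_mod_cast hT
  have hmean : (∫ u in (0:ℝ)..((q ^ t : ℕ):ℝ), gm g (q ^ t) om V u) / ((q ^ t : ℕ):ℝ) = mu g := by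
    rw [hfull]; field_simp
  have hmu0 := mu_nonneg hg1
  have hmu1 := mu_le_one g
  refine ⟨?_, ?_, ?_⟩
  · -- value at zero
    set K : ℝ := C1 * ((q:ℝ) ^ (t - t1)) ^ kap with hKdef
    have hK0 : 0 ≤ K := by positivity
    have hom' : ∀ a < q ^ t, om V a ≤ K := by
      intro a ha
      have := hreg V hV t ht1 le_rfl a ha
      simpa using this
    have hle : ∀ u, gm g (q ^ t) om V u ≤ K := by
      intro u
      unfold gm
      split_ifs
      · exact hom' _ (fl_lt' hT u)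
      · exact hK0
    unfold CV
    rw [div_le_iff₀ hT']
    calc ∫ u in (0:ℝ)..((q ^ t : ℕ):ℝ), gm g (q ^ t) om V u * gm g (q ^ t) om V (u + 0)
        ≤ ∫ u in (0:ℝ)..((q ^ t : ℕ):ℝ), gm g (q ^ t) om V u * K := by
          apply intervalIntegral.integral_mono_on hT'.le
          · simp only [add_zero]
            refine (intervalIntegrable_const (c := MB (q ^ t) om V * MB (q ^ t) om V)).mono_fun'
              ((gm_meas _ _ _ _).mul (gm_meas _ _ _ _)).aestronglyMeasurable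
              (Filter.Eventually.of_forall fun x => ?_)
            show ‖gm g (q ^ t) om V x * gm g (q ^ t) om V x‖ ≤ _
            rw [Real.norm_eq_abs, abs_mul]
            exact mul_le_mul (gm_abs_le g hT om V _) (gm_abs_le g hT om V _) (abs_nonneg _)
              (MB_nonneg _ _ _)
          · exact (gm_ii g hT om V _ _).mul_const K
          · intro u _
            exact mul_le_mul_of_nonneg_left (hle _) (gm_nonneg _ _ _ hom _ _)
      _ = ((q ^ t : ℕ):ℝ) * mu g * K := by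
          rw [intervalIntegral.integral_mul_const, hfull]
      _ ≤ K * ((q ^ t : ℕ):ℝ) := by
          have : ((q ^ t : ℕ):ℝ) * mu g ≤ ((q ^ t : ℕ):ℝ) * 1 :=
            mul_le_mul_of_nonneg_left hmu1 hT'.le
          calc ((q ^ t : ℕ):ℝ) * mu g * K ≤ ((q ^ t : ℕ):ℝ) * 1 * K :=
                mul_le_mul_of_nonneg_right this hK0
            _ = K * ((q ^ t : ℕ):ℝ) := by ring
  · -- 1 ≤ D < S
    intro D hD1 hDS
    -- the level
    obtain ⟨j, hj1, hj2⟩ : ∃ j : ℕ, (q:ℝ) ^ j ≤ D ∧ D < (q:ℝ) ^ (j + 1) :=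
      exists_nat_pow_near hD1 (by exact_mod_cast (by omega : 1 < q))
    have hjt : j < t - t1 := by
      by_contra hcon
      have : (q:ℝ) ^ (t - t1) ≤ (q:ℝ) ^ j := pow_le_pow_right₀ hq1 (by omega)
      linarith
    set i : ℕ := t - j with hi
    have hti : t - i = j := by omega
    have hit1 : i - t1 = t - t1 - j := by omega
    set K : ℝ := C1 * ((q:ℝ) ^ (i - t1)) ^ kap with hKdef
    have hK0 : 0 ≤ K := by positivity
    have hcell : ∀ a : ℤ, ∑ z ∈ range (q ^ j), RW (q ^ t) om V (a * (q ^ j : ℕ) + z) ≤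
        ((q ^ j : ℕ):ℝ) * K := by
      intro a
      obtain ⟨a', ha', he⟩ := RW_cell (V := V) hq (show i ≤ t by omega) om a
      rw [hti] at he
      rw [he]
      have := hreg V hV i (by omega) (by omega) a' ha'
      rw [hti] at this
      push_cast
      exact this
    have hD0 : 0 < D := by linarith
    have hqj0 : (0:ℝ) < (q:ℝ) ^ j := by positivity
    have hint : ∀ u, ∫ v in u..(u + D), gm g (q ^ t) om V v ≤ D * (3 * K) := by
      intro u
      have h := int_le_of_cells hg1 hT om hom V (q ^ j) (by positivity) K hK0 hcell u D hD0.le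
      push_cast at h
      refine h.trans ?_
      calc (D + 2 * (q:ℝ) ^ j) * K ≤ (D + 2 * D) * K := by
            apply mul_le_mul_of_nonneg_right _ hK0; linarith
        _ = D * (3 * K) := by ring
    have h := CV_avg (g := g) hT om hom V D hD0 (3 * K) hint
    rw [hmean] at h
    refine h.trans ?_
    have hSD : (q:ℝ) ^ (i - t1) ≤ q * ((q:ℝ) ^ (t - t1) / D) := by
      rw [hit1, ← mul_div_assoc, le_div_iff₀ hD0]
      have e : (q:ℝ) ^ (t - t1) = (q:ℝ) ^ (t - t1 - j) * (q:ℝ) ^ j := by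
        rw [← pow_add]; congr 1; omega
      rw [e]
      have : D ≤ q * (q:ℝ) ^ j := by rw [← pow_succ']; exact hj2.le
      calc (q:ℝ) ^ (t - t1 - j) * D ≤ (q:ℝ) ^ (t - t1 - j) * (q * (q:ℝ) ^ j) :=
            mul_le_mul_of_nonneg_left this (by positivity)
        _ = q * ((q:ℝ) ^ (t - t1 - j) * (q:ℝ) ^ j) := by ring
    have hpow : ((q:ℝ) ^ (i - t1)) ^ kap ≤ (q:ℝ) ^ kap * ((q:ℝ) ^ (t - t1) / D) ^ kap := by
      rw [← Real.mul_rpow hq0.le (by positivity)]
      exact Real.rpow_le_rpow (by positivity) hSD hkap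
    calc mu g * (3 * K) ≤ 1 * (3 * K) := mul_le_mul_of_nonneg_right hmu1 (by positivity)
      _ = 3 * C1 * ((q:ℝ) ^ (i - t1)) ^ kap := by rw [hKdef]; ring
      _ ≤ 3 * C1 * ((q:ℝ) ^ kap * ((q:ℝ) ^ (t - t1) / D) ^ kap) :=
          mul_le_mul_of_nonneg_left hpow (by positivity)
      _ = 3 * C1 * (q:ℝ) ^ kap * ((q:ℝ) ^ (t - t1) / D) ^ kap := by ring
  · -- D ≥ S
    intro D hDS
    have hS' : (0:ℝ) < (q:ℝ) ^ (t - t1) := by positivity
    have hD0 : 0 < D := by linarith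
    have hper' : Function.Periodic (gm g (q ^ t) om V) ((q ^ (t - t1) : ℕ):ℝ) :=
      gm_perS hT om V (hper V hV)
    have hii : ∀ a b : ℝ, IntervalIntegrable (gm g (q ^ t) om V) volume a b :=
      fun a b => gm_ii g hT om V a b
    have hSint : ∀ u : ℝ, ∫ v in u..(u + ((q ^ (t - t1) : ℕ):ℝ)), gm g (q ^ t) om V v =
        ((q ^ (t - t1) : ℕ):ℝ) * mu g := by
      intro u
      have h1 := hper'.intervalIntegral_add_zsmul_eq ((q ^ t1 : ℕ):ℤ) u hii
      have h2 : u + ((q ^ t1 : ℕ):ℤ) • ((q ^ (t - t1) : ℕ):ℝ) = u + ((q ^ t : ℕ):ℝ) := by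
        rw [zsmul_eq_mul]
        push_cast
        rw [← pow_add, Nat.add_sub_cancel' ht1]
      rw [h2, (gm_per g (q ^ t) om V).intervalIntegral_add_eq u 0, zero_add, hfull] at h1
      rw [zsmul_eq_mul] at h1
      have h3 : (((q ^ t : ℕ):ℝ)) = (((q ^ t1 : ℕ):ℤ):ℝ) * ((q ^ (t - t1) : ℕ):ℝ) := by
        push_cast
        rw [← pow_add, Nat.add_sub_cancel' ht1]
      rw [h3, mul_assoc] at h1
      have h4 : (0:ℝ) < (((q ^ t1 : ℕ):ℤ):ℝ) := by
        push_cast; positivity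
      exact (mul_left_cancel₀ h4.ne' h1).symm
    have hint : ∀ u, ∫ v in u..(u + D), gm g (q ^ t) om V v ≤
        D * (mu g * (1 + (q:ℝ) ^ (t - t1) / D)) := by
      intro u
      set N : ℕ := ⌈D / (q:ℝ) ^ (t - t1)⌉₊ with hN
      have h3 : D ≤ (N : ℝ) * (q:ℝ) ^ (t - t1) := by
        have := Nat.le_ceil (D / (q:ℝ) ^ (t - t1))
        rw [div_le_iff₀ hS'] at this
        exact this
      have h4 : (N : ℝ) * (q:ℝ) ^ (t - t1) ≤ D + (q:ℝ) ^ (t - t1) := by
        have := (Nat.ceil_lt_add_one (div_nonneg hD0.le hS'.le)).le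
        have h5 := mul_le_mul_of_nonneg_right this hS'.le
        have h6 : (D / (q:ℝ) ^ (t - t1) + 1) * (q:ℝ) ^ (t - t1) = D + (q:ℝ) ^ (t - t1) := by
          field_simp
        linarith
      have h1 := hper'.intervalIntegral_add_zsmul_eq (N:ℤ) u hii
      rw [hSint u] at h1
      have h2 : u + (N:ℤ) • ((q ^ (t - t1) : ℕ):ℝ) = u + N * (q:ℝ) ^ (t - t1) := by
        rw [zsmul_eq_mul]; push_cast; ring
      rw [h2, zsmul_eq_mul] at h1
      calc ∫ v in u..(u + D), gm g (q ^ t) om V v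
          ≤ ∫ v in u..(u + N * (q:ℝ) ^ (t - t1)), gm g (q ^ t) om V v := by
            apply intervalIntegral.integral_mono_interval le_rfl (by linarith) (by linarith)
            · exact Filter.Eventually.of_forall fun x => gm_nonneg g _ om hom V x
            · exact hii _ _
        _ = (N * (q:ℝ) ^ (t - t1)) * mu g := by rw [h1]; push_cast; ring
        _ ≤ (D + (q:ℝ) ^ (t - t1)) * mu g := mul_le_mul_of_nonneg_right h4 hmu0
        _ = D * (mu g * (1 + (q:ℝ) ^ (t - t1) / D)) := by field_simp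
    have h := CV_avg (g := g) hT om hom V D hD0 _ hint
    rw [hmean] at h
    refine h.trans (le_of_eq ?_)
    ring

end Pool.FD
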