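import Pool.Agent.H84.FD.S

/-! Row F1C: the autocorrelation is continuous; basic facts on `gm`. -/

namespace Pool.FD
open Finset MeasureTheory

lemma fl_lt' {T : ℕ} (hT : 0 < T) (x : ℝ) : fl T x < T := by
  unfold fl
  have h1 := Int.emod_lt_of_pos ⌊x⌋ (by exact_mod_cast hT : (0:ℤ) < T)
  have h0 := Int.emod_nonneg ⌊x⌋ (by exact_mod_cast hT.ne' : (T:ℤ) ≠ 0)
  omega

lemma fl_add_nat {T : ℕ} (x : ℝ) : fl T (x + T) = fl T x := by
  unfold fl
  rw [Int.floor_add_natCast, Int.add_emod_right]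

lemma mar_add_nat (g : ℕ) (x : ℝ) (N : ℕ) : mar g (x + N) ↔ mar g x := by
  unfold mar
  rw [Int.fract_add_natCast]

lemma gm_per (g T : ℕ) (om : ℕ → ℕ → ℝ) (V : ℕ) : Function.Periodic (gm g T om V) (T:ℝ) := by
  intro x
  unfold gm
  rw [fl_add_nat, propext (mar_add_nat g x T)]

lemma gm_nonneg (g T : ℕ) (om : ℕ → ℕ → ℝ) (hom : ∀ a b, 0 ≤ om a b) (V : ℕ) (u : ℝ) :
    0 ≤ gm g T om V u := by
  unfold gm
  split_ifs
  · exact hom _ _
  · exact le_rfl

/-- a bound for the row -/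
noncomputable def MB (T : ℕ) (om : ℕ → ℕ → ℝ) (V : ℕ) : ℝ := ∑ a ∈ range T, |om V a|

lemma MB_nonneg (T : ℕ) (om : ℕ → ℕ → ℝ) (V : ℕ) : 0 ≤ MB T om V :=
  sum_nonneg fun _ _ => abs_nonneg _

lemma gm_abs_le (g : ℕ) {T : ℕ} (hT : 0 < T) (om : ℕ → ℕ → ℝ) (V : ℕ) (u : ℝ) :
    |gm g T om V u| ≤ MB T om V := by
  unfold gm
  split_ifs
  · exact single_le_sum (f := fun a => |om V a|) (fun _ _ => abs_nonneg _)
      (mem_range.2 (fl_lt' hT u))
  · simpa using MB_nonneg T om V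

lemma meas_fl (T : ℕ) : Measurable (fl T) := by
  unfold fl
  exact (measurable_from_top (f := fun z : ℤ => (z % (T:ℤ)).toNat)).comp Int.measurable_floor

lemma meas_mar (g : ℕ) : MeasurableSet {x : ℝ | mar g x} := by
  unfold mar
  exact (measurableSet_le measurable_const measurable_fract).inter
    (measurableSet_le measurable_fract measurable_const)

lemma gm_meas (g T : ℕ) (om : ℕ → ℕ → ℝ) (V : ℕ) : Measurable (gm g T om V) := by
  unfold gm
  refine Measurable.ite (meas_mar g) ?_ measurable_const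
  exact (measurable_from_top (f := fun a : ℕ => om V a)).comp (meas_fl T)

/-- the set of possible jumps -/
def Jp (g : ℕ) : Set ℝ :=
  (Set.range fun n : ℤ => (n:ℝ)) ∪ (Set.range fun n : ℤ => (n:ℝ) + 1 / 2 ^ g) ∪
    (Set.range fun n : ℤ => (n:ℝ) + (1 - 1 / 2 ^ g))

lemma Jp_count (g : ℕ) : (Jp g).Countable :=
  ((Set.countable_range _).union (Set.countable_range _)).union (Set.countable_range _)

lemma gm_cont (g T : ℕ) (om : ℕ → ℕ → ℝ) (V : ℕ) {x : ℝ} (hx : x ∉ Jp g) :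
    ContinuousAt (gm g T om V) x := by
  have h0 : ∀ n : ℤ, (n:ℝ) ≠ x := fun n h => hx (Or.inl (Or.inl ⟨n, h⟩))
  have h1 : Int.fract x ≠ 1 / 2 ^ g := by
    intro h
    refine hx (Or.inl (Or.inr ⟨⌊x⌋, ?_⟩))
    show ((⌊x⌋:ℤ):ℝ) + 1 / 2 ^ g = x
    rw [← h]; exact Int.floor_add_fract x
  have h2 : Int.fract x ≠ 1 - 1 / 2 ^ g := by
    intro h
    refine hx (Or.inr ⟨⌊x⌋, ?_⟩)
    show ((⌊x⌋:ℤ):ℝ) + (1 - 1 / 2 ^ g) = x
    rw [← h]; exact Int.floor_add_fract x
  have hfl : (⌊x⌋:ℝ) < x := lt_of_le_of_ne (Int.floor_le x) (h0 _)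
  have hlt := Int.lt_floor_add_one x
  have hev : ∀ᶠ y in nhds x, (⌊x⌋:ℝ) < y ∧ y < ⌊x⌋ + 1 :=
    (lt_mem_nhds hfl).and (gt_mem_nhds hlt)
  have hfloor : ∀ᶠ y in nhds x, ⌊y⌋ = ⌊x⌋ := by
    filter_upwards [hev] with y hy
    exact Int.floor_eq_iff.2 ⟨hy.1.le, hy.2⟩
  have hfr : ContinuousAt (Int.fract : ℝ → ℝ) x := by
    have : ContinuousAt (fun y : ℝ => y - ⌊x⌋) x := by fun_prop
    refine this.congr ?_
    filter_upwards [hfloor] with y hy
    rw [Int.fract, hy]
  have hm : ∀ᶠ y in nhds x, (mar g y ↔ mar g x) := by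
    have e1 : ∀ᶠ y in nhds x, (1 / 2 ^ g ≤ Int.fract y ↔ 1 / 2 ^ g ≤ Int.fract x) := by
      rcases lt_or_gt_of_ne h1 with h | h
      · filter_upwards [hfr.eventually (gt_mem_nhds h)] with y hy
        exact ⟨fun h' => absurd hy (not_lt.2 h'), fun h' => absurd h (not_lt.2 h')⟩
      · filter_upwards [hfr.eventually (lt_mem_nhds h)] with y hy
        exact ⟨fun _ => h.le, fun _ => hy.le⟩
    have e2 : ∀ᶠ y in nhds x, (Int.fract y ≤ 1 - 1 / 2 ^ g ↔ Int.fract x ≤ 1 - 1 / 2 ^ g) := by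
      rcases lt_or_gt_of_ne h2 with h | h
      · filter_upwards [hfr.eventually (gt_mem_nhds h)] with y hy
        exact ⟨fun _ => h.le, fun _ => hy.le⟩
      · filter_upwards [hfr.eventually (lt_mem_nhds h)] with y hy
        exact ⟨fun h' => absurd hy (not_lt.2 h'), fun h' => absurd h (not_lt.2 h')⟩
    filter_upwards [e1, e2] with y h1 h2
    unfold mar
    rw [h1, h2]
  refine (continuousAt_const (y := gm g T om V x)).congr ?_
  filter_upwards [hfloor, hm] with y hy hmy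
  unfold gm fl
  rw [hy, propext hmy]

lemma gm_ii (g : ℕ) {T : ℕ} (hT : 0 < T) (om : ℕ → ℕ → ℝ) (V : ℕ) (a b : ℝ) :
    IntervalIntegrable (gm g T om V) volume a b := by
  refine (intervalIntegrable_const (c := MB T om V)).mono_fun'
    (gm_meas g T om V).aestronglyMeasurable (Filter.Eventually.of_forall fun x => ?_)
  show ‖gm g T om V x‖ ≤ MB T om V
  rw [Real.norm_eq_abs]; exact gm_abs_le g hT om V x

/-- row F1C -/
theorem f1c : F1CStmt := by
  intro g T hT om V
  unfold CV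
  refine Continuous.div_const ?_ _
  rw [continuous_iff_continuousAt]
  intro v0
  refine intervalIntegral.continuousAt_of_dominated_interval
    (bound := fun _ => MB T om V * MB T om V) ?_ ?_ ?_ ?_
  · refine Filter.Eventually.of_forall fun v => ?_
    exact ((gm_meas g T om V).mul ((gm_meas g T om V).comp
      (measurable_id.add_const v))).aestronglyMeasurable
  · refine Filter.Eventually.of_forall fun v => Filter.Eventually.of_forall fun u _ => ?_
    rw [Real.norm_eq_abs, abs_mul]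
    exact mul_le_mul (gm_abs_le g hT om V u) (gm_abs_le g hT om V _) (abs_nonneg _)
      (MB_nonneg _ _ _)
  · exact intervalIntegrable_const
  · have hc : ((fun u : ℝ => u + v0) ⁻¹' (Jp g)).Countable :=
      (Jp_count g).preimage (add_left_injective v0)
    filter_upwards [hc.ae_notMem volume] with u hu _
    refine continuousAt_const.mul ?_
    have h1 : ContinuousAt (gm g T om V) (u + v0) := gm_cont g T om V hu
    exact ContinuousAt.comp (f := fun v : ℝ => u + v) (x := v0) h1 (by fun_prop)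

end Pool.FD
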