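import Pool.Agent.H17.FD.F1A

/-! Row F1T: (6.1) in the mean over `y`. -/

namespace Pool.FD
open Finset MeasureTheory

/-- indicator of `D < R` -/
noncomputable def idc (D R : ℝ) : ℝ := if D < R then 1 else 0

lemma idc_nonneg (D R : ℝ) : 0 ≤ idc D R := by
  unfold idc; split_ifs <;> norm_num

lemma half_rpow_le {δ : ℝ} (h0 : 0 ≤ δ) (h1 : δ ≤ 1) : (1 / 2 : ℝ) ^ δ ≤ 1 - δ / 2 := by
  have h := rpow_one_add_le_one_add_mul_self (s := -1 / 2) (by norm_num) h0 h1
  have e : (1:ℝ) + -1 / 2 = 1 / 2 := by norm_num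
  rw [e] at h
  linarith

lemma rpow_pow_comm17 {a : ℝ} (ha : 0 ≤ a) (δ : ℝ) (n : ℕ) : (a ^ δ) ^ n = (a ^ n) ^ δ := by
  rw [← Real.rpow_natCast, ← Real.rpow_mul ha, mul_comm, Real.rpow_mul ha, Real.rpow_natCast]

lemma geo_half {δ : ℝ} (h0 : 0 < δ) (h1 : δ ≤ 1) (n : ℕ) :
    ∑ j ∈ range n, ((1 / 2 : ℝ) ^ δ) ^ j ≤ 2 / δ := by
  set r : ℝ := (1 / 2 : ℝ) ^ δ with hr
  have hr0 : 0 ≤ r := by positivity
  have hr1 : r ≤ 1 - δ / 2 := half_rpow_le h0.le h1
  have h := mul_neg_geom_sum r n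
  have hs : 0 ≤ ∑ j ∈ range n, r ^ j := sum_nonneg fun _ _ => pow_nonneg hr0 _
  rw [le_div_iff₀ h0]
  have h2 : δ / 2 * ∑ j ∈ range n, r ^ j ≤ (1 - r) * ∑ j ∈ range n, r ^ j :=
    mul_le_mul_of_nonneg_right (by linarith) hs
  have h3 : 0 ≤ r ^ n := pow_nonneg hr0 _
  nlinarith

lemma two_rpow_le {b : ℝ} (hb : b ≤ 1 / 2) : (2:ℝ) ^ b ≤ 3 / 2 := by
  calc (2:ℝ) ^ b ≤ (2:ℝ) ^ (1/2:ℝ) := Real.rpow_le_rpow_of_exponent_le (by norm_num) hb
    _ = Real.sqrt 2 := by rw [Real.sqrt_eq_rpow]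
    _ ≤ 3 / 2 := by
      rw [Real.sqrt_le_left (by norm_num)]; norm_num

/-- the numerical summation -/
lemma f1t_num {q S kap bet C1 C2 : ℝ} {w J : ℕ} (hq : 2 ≤ q) (hS : 1 ≤ S)
    (hJ : ∀ j < J, (2:ℝ) ^ j < S) (hkap : 0 ≤ kap) (hkb : kap < bet) (hbet : bet ≤ 1 / 2)
    (hC1 : 1 ≤ C1) (hC2 : 1 ≤ C2) :
    C1 * S ^ kap * (C2 * (1 / 2 ^ w) ^ bet) +
      ∑ j ∈ range J, (3 * C1 * q ^ kap * (S / 2 ^ j) ^ kap) * (C2 * (2 ^ (j + 1) / 2 ^ w) ^ bet) +
      ∑ j ∈ range w, (1 / 2 ^ j) * (C2 * ((2 ^ (j + 1) * S) / 2 ^ w) ^ bet) ≤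
    30 * q / (bet - kap) * C1 * C2 * (S / 2 ^ w) ^ bet := by
  set δ : ℝ := bet - kap with hδ
  have hδ0 : 0 < δ := by rw [hδ]; linarith
  have hδ1 : δ ≤ 1 / 2 := by rw [hδ]; linarith
  have hS0 : 0 < S := by linarith
  have hw : (0:ℝ) < 2 ^ w := by positivity
  set B : ℝ := (S / 2 ^ w) ^ bet with hB
  have hB0 : 0 < B := by positivity
  have h2b := two_rpow_le hbet
  have h2b0 : (0:ℝ) < (2:ℝ) ^ bet := by positivity
  -- first
  have ha : C1 * S ^ kap * (C2 * (1 / 2 ^ w) ^ bet) ≤ C1 * C2 * B := by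
    have h1 : S ^ kap ≤ S ^ bet := Real.rpow_le_rpow_of_exponent_le hS hkb.le
    have h2 : B = S ^ bet * (1 / 2 ^ w) ^ bet := by
      rw [hB, ← Real.mul_rpow hS0.le (by positivity)]; congr 1; ring
    rw [h2]
    have h3 : S ^ kap * (1 / 2 ^ w) ^ bet ≤ S ^ bet * (1 / 2 ^ w) ^ bet :=
      mul_le_mul_of_nonneg_right h1 (by positivity)
    calc C1 * S ^ kap * (C2 * (1 / 2 ^ w) ^ bet) = C1 * C2 * (S ^ kap * (1 / 2 ^ w) ^ bet) := by ring
      _ ≤ C1 * C2 * (S ^ bet * (1 / 2 ^ w) ^ bet) := mul_le_mul_of_nonneg_left h3 (by positivity)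
  -- second
  have hqk : q ^ kap ≤ q := by
    calc q ^ kap ≤ q ^ (1:ℝ) := Real.rpow_le_rpow_of_exponent_le (by linarith) (by linarith)
      _ = q := Real.rpow_one q
  have hb : ∑ j ∈ range J, (3 * C1 * q ^ kap * (S / 2 ^ j) ^ kap) *
      (C2 * (2 ^ (j + 1) / 2 ^ w) ^ bet) ≤ 9 * q / δ * C1 * C2 * B := by
    have hterm : ∀ j ∈ range J, (3 * C1 * q ^ kap * (S / 2 ^ j) ^ kap) *
        (C2 * (2 ^ (j + 1) / 2 ^ w) ^ bet) ≤
        (9 / 2 * C1 * q * C2 * B) * ((1 / 2 : ℝ) ^ δ) ^ (J - 1 - j) := by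
      intro j hj
      have hjJ := mem_range.1 hj
      have e1 : ((2:ℝ) ^ (j + 1) / 2 ^ w) ^ bet = (2:ℝ) ^ bet * ((2:ℝ) ^ j / S) ^ bet * B := by
        rw [hB, ← Real.mul_rpow (by norm_num) (by positivity),
          ← Real.mul_rpow (by positivity) (by positivity)]
        congr 1
        rw [pow_succ]; field_simp
      have e2 : (S / 2 ^ j) ^ kap * ((2:ℝ) ^ j / S) ^ bet = ((2:ℝ) ^ j / S) ^ δ := by
        have : S / 2 ^ j = ((2:ℝ) ^ j / S)⁻¹ := by rw [inv_div]
        rw [this, Real.inv_rpow (by positivity), ← Real.rpow_neg (by positivity),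
          ← Real.rpow_add (by positivity)]
        congr 1
        rw [hδ]; ring
      have e3 : ((2:ℝ) ^ j / S) ^ δ ≤ ((1 / 2 : ℝ) ^ δ) ^ (J - 1 - j) := by
        rw [rpow_pow_comm17 (by norm_num)]
        apply Real.rpow_le_rpow (by positivity) _ hδ0.le
        rw [div_le_iff₀ hS0, one_div, inv_pow, inv_mul_eq_div, le_div_iff₀ (by positivity), ← pow_add]
        have : j + (J - 1 - j) = J - 1 := by omega
        rw [this]
        exact (hJ (J - 1) (by omega)).le
      calc (3 * C1 * q ^ kap * (S / 2 ^ j) ^ kap) * (C2 * (2 ^ (j + 1) / 2 ^ w) ^ bet)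
          = 3 * C1 * C2 * B * (q ^ kap * ((2:ℝ) ^ bet * ((S / 2 ^ j) ^ kap * ((2:ℝ) ^ j / S) ^ bet))) := by
            rw [e1]; ring
        _ = 3 * C1 * C2 * B * (q ^ kap * ((2:ℝ) ^ bet * ((2:ℝ) ^ j / S) ^ δ)) := by rw [e2]
        _ ≤ 3 * C1 * C2 * B * (q * (3 / 2 * ((1 / 2 : ℝ) ^ δ) ^ (J - 1 - j))) := by
            apply mul_le_mul_of_nonneg_left _ (by positivity)
            apply mul_le_mul hqk _ (by positivity) (by linarith)
            exact mul_le_mul h2b e3 (by positivity) (by norm_num)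
        _ = (9 / 2 * C1 * q * C2 * B) * ((1 / 2 : ℝ) ^ δ) ^ (J - 1 - j) := by ring
    refine (sum_le_sum hterm).trans ?_
    rw [← mul_sum, sum_range_reflect (fun j => ((1 / 2 : ℝ) ^ δ) ^ j) J]
    calc (9 / 2 * C1 * q * C2 * B) * ∑ j ∈ range J, ((1 / 2 : ℝ) ^ δ) ^ j
        ≤ (9 / 2 * C1 * q * C2 * B) * (2 / δ) :=
          mul_le_mul_of_nonneg_left (geo_half hδ0 (by linarith) J) (by positivity)
      _ = 9 * q / δ * C1 * C2 * B := by ring
  -- third
  have hc : ∑ j ∈ range w, (1 / 2 ^ j) * (C2 * ((2 ^ (j + 1) * S) / 2 ^ w) ^ bet) ≤ 6 * C2 * B := by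
    have hterm : ∀ j ∈ range w, (1 / 2 ^ j) * (C2 * ((2 ^ (j + 1) * S) / 2 ^ w) ^ bet) ≤
        (3 / 2 * C2 * B) * ((1 / 2 : ℝ) ^ (1 - bet)) ^ j := by
      intro j _
      have e1 : (((2:ℝ) ^ (j + 1) * S) / 2 ^ w) ^ bet = (2:ℝ) ^ bet * ((2:ℝ) ^ j) ^ bet * B := by
        rw [hB, ← Real.mul_rpow (by norm_num) (by positivity),
          ← Real.mul_rpow (by positivity) (by positivity)]
        congr 1
        rw [pow_succ]; ring
      have e2 : (1 / (2:ℝ) ^ j) * ((2:ℝ) ^ j) ^ bet = ((1 / 2 : ℝ) ^ (1 - bet)) ^ j := by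
        rw [rpow_pow_comm17 (by norm_num)]
        have : (1 / 2 : ℝ) ^ j = ((2:ℝ) ^ j)⁻¹ := by rw [one_div, inv_pow]
        rw [this, Real.inv_rpow (by positivity), Real.rpow_sub (by positivity), Real.rpow_one, inv_div,
          one_div]
        ring
      calc (1 / 2 ^ j) * (C2 * ((2 ^ (j + 1) * S) / 2 ^ w) ^ bet)
          = C2 * B * ((2:ℝ) ^ bet * ((1 / (2:ℝ) ^ j) * ((2:ℝ) ^ j) ^ bet)) := by rw [e1]; ring
        _ = C2 * B * ((2:ℝ) ^ bet * ((1 / 2 : ℝ) ^ (1 - bet)) ^ j) := by rw [e2]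
        _ ≤ C2 * B * (3 / 2 * ((1 / 2 : ℝ) ^ (1 - bet)) ^ j) := by
            apply mul_le_mul_of_nonneg_left _ (by positivity)
            exact mul_le_mul_of_nonneg_right h2b (by positivity)
        _ = (3 / 2 * C2 * B) * ((1 / 2 : ℝ) ^ (1 - bet)) ^ j := by ring
    refine (sum_le_sum hterm).trans ?_
    rw [← mul_sum]
    have h4 : ∑ j ∈ range w, ((1 / 2 : ℝ) ^ (1 - bet)) ^ j ≤ 4 := by
      refine (geo_half (by linarith : 0 < 1 - bet) (by linarith) w).trans ?_
      rw [div_le_iff₀ (by linarith)]; linarith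
    calc (3 / 2 * C2 * B) * ∑ j ∈ range w, ((1 / 2 : ℝ) ^ (1 - bet)) ^ j
        ≤ (3 / 2 * C2 * B) * 4 := mul_le_mul_of_nonneg_left h4 (by positivity)
      _ = 6 * C2 * B := by ring
  have hqd : 1 ≤ q / δ := by rw [le_div_iff₀ hδ0]; linarith
  have hCB : 0 < C1 * C2 * B := by positivity
  have h6 : 6 * C2 * B ≤ 6 * (C1 * C2 * B) := by nlinarith [mul_pos (show (0:ℝ) < C2 by linarith) hB0]
  have h7 : C1 * C2 * B ≤ (q / δ) * (C1 * C2 * B) := by nlinarith
  have e8 : 30 * q / δ * C1 * C2 * B = 30 * ((q / δ) * (C1 * C2 * B)) := by ring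
  have e9 : 9 * q / δ * C1 * C2 * B = 9 * ((q / δ) * (C1 * C2 * B)) := by ring
  rw [e8]
  rw [e9] at hb
  linarith

lemma pairsum {L : Type*} (s : Finset L) (c R Q : L → ℝ) (k : ℕ → ℝ) (N : ℕ) (hc : ∀ l ∈ s, 0 ≤ c l)
    (hP : ∀ l ∈ s, ∑ x ∈ range N, ∑ x' ∈ range N, k x * k x' * idc |(x:ℝ) - x'| (R l) ≤ Q l) :
    ∑ x ∈ range N, ∑ x' ∈ range N, k x * k x' * (∑ l ∈ s, c l * idc |(x:ℝ) - x'| (R l)) ≤
      ∑ l ∈ s, c l * Q l := by
  have e : ∑ x ∈ range N, ∑ x' ∈ range N, k x * k x' * (∑ l ∈ s, c l * idc |(x:ℝ) - x'| (R l)) =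
      ∑ l ∈ s, c l * ∑ x ∈ range N, ∑ x' ∈ range N, k x * k x' * idc |(x:ℝ) - x'| (R l) := by
    simp only [mul_sum]
    rw [sum_comm' (s := s) (t := fun _ => range N) (t' := range N) (s' := fun _ => s)
      (by intro x y; tauto)]
    apply sum_congr rfl
    intro x _
    rw [sum_comm]
    apply sum_congr rfl
    intro l _
    apply sum_congr rfl
    intro x' _
    ring
  rw [e]
  exact sum_le_sum fun l hl => mul_le_mul_of_nonneg_left (hP l hl) (hc l hl)

lemma CV_even {g T : ℕ} (om : ℕ → ℕ → ℝ) (V : ℕ) (v : ℝ) :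
    CV g T om V (-v) = CV g T om V v := by
  unfold CV
  congr 1
  have hp : Function.Periodic (fun u => gm g T om V u * gm g T om V (u + -v)) (T:ℝ) := by
    intro u
    show gm g T om V (u + T) * gm g T om V (u + T + -v) = _
    rw [show u + (T:ℝ) + -v = (u + -v) + T by ring, gm_per g T om V u, gm_per g T om V (u + -v)]
  have h1 := hp.intervalIntegral_add_eq 0 v
  simp only [zero_add] at h1
  rw [h1]
  have h2 := intervalIntegral.integral_comp_add_right (a := 0) (b := (T:ℝ))
    (fun u => gm g T om V u * gm g T om V (u + -v)) v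
  simp only [zero_add] at h2
  rw [add_comm v (T:ℝ), ← h2]
  apply intervalIntegral.integral_congr
  intro u _
  show gm g T om V (u + v) * gm g T om V (u + v + -v) = gm g T om V u * gm g T om V (u + v)
  rw [show u + v + -v = u by ring, mul_comm]

lemma CV_abs {g T : ℕ} (om : ℕ → ℕ → ℝ) (V : ℕ) (y d : ℝ) :
    CV g T om V (y * d) = CV g T om V (y * |d|) := by
  rcases abs_choice d with h | h
  · rw [h]
  · rw [h, mul_neg, CV_even]

/-- positivity: Cauchy-Schwarz -/
lemma CV_pos {g T : ℕ} (hg : 1 ≤ g) (hT : 0 < T) (om : ℕ → ℕ → ℝ) (V : ℕ)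
    (hsum : ∑ a ∈ range T, om V a = T) (k : ℕ → ℝ) (N : ℕ) (hk : ∑ x ∈ range N, k x = 1) (y : ℝ) :
    mu g ^ 2 ≤ ∑ x ∈ range N, ∑ x' ∈ range N, k x * k x' * CV g T om V (y * ((x:ℝ) - x')) := by
  have hT' : (0:ℝ) < T := by exact_mod_cast hT
  set G := gm g T om V with hG
  set F : ℝ → ℝ := fun u => ∑ x ∈ range N, k x * G (u + y * x) with hF
  have hGii : ∀ c : ℝ, ∀ a b : ℝ, IntervalIntegrable (fun u => G (u + c)) volume a b := by
    intro c a b
    refine (intervalIntegrable_const (c := MB T om V)).mono_fun'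
      ((gm_meas g T om V).comp (measurable_id.add_const c)).aestronglyMeasurable
      (Filter.Eventually.of_forall fun x => ?_)
    show ‖G (x + c)‖ ≤ MB T om V
    rw [Real.norm_eq_abs]; exact gm_abs_le g hT om V _
  have hGGii : ∀ c d : ℝ, ∀ a b : ℝ, IntervalIntegrable (fun u => G (u + c) * G (u + d)) volume a b := by
    intro c d a b
    refine (intervalIntegrable_const (c := MB T om V * MB T om V)).mono_fun'
      (((gm_meas g T om V).comp (measurable_id.add_const c)).mul
        ((gm_meas g T om V).comp (measurable_id.add_const d))).aestronglyMeasurable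
      (Filter.Eventually.of_forall fun x => ?_)
    show ‖G (x + c) * G (x + d)‖ ≤ MB T om V * MB T om V
    rw [Real.norm_eq_abs, abs_mul]
    exact mul_le_mul (gm_abs_le g hT om V _) (gm_abs_le g hT om V _) (abs_nonneg _) (MB_nonneg _ _ _)
  have hGp : ∀ u : ℝ, G (u + T) = G u := fun u => gm_per g T om V u
  have hshift : ∀ c : ℝ, ∫ u in (0:ℝ)..T, G (u + c) = T * mu g := by
    intro c
    rw [intervalIntegral.integral_comp_add_right (fun u => G u) c, zero_add, add_comm (T:ℝ) c,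
      (gm_per g T om V).intervalIntegral_add_eq c 0, zero_add]
    exact int_full hg hT om V hsum
  have hcorr : ∀ x x' : ℕ, ∫ u in (0:ℝ)..T, G (u + y * x') * G (u + y * x) =
      T * CV g T om V (y * ((x:ℝ) - x')) := by
    intro x x'
    have hp : Function.Periodic (fun u => G u * G (u + y * ((x:ℝ) - x'))) (T:ℝ) := by
      intro u
      show G (u + T) * G (u + T + y * ((x:ℝ) - x')) = _
      rw [show u + (T:ℝ) + y * ((x:ℝ) - x') = (u + y * ((x:ℝ) - x')) + T by ring,
        hGp u, hGp (u + y * ((x:ℝ) - x'))]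
    have h1 := hp.intervalIntegral_add_eq 0 (y * x')
    simp only [zero_add] at h1
    have h2 := intervalIntegral.integral_comp_add_right (a := 0) (b := (T:ℝ))
      (fun u => G u * G (u + y * ((x:ℝ) - x'))) (y * x')
    simp only [zero_add] at h2
    unfold CV
    rw [mul_div_cancel₀ _ hT'.ne', h1, add_comm (y * (x':ℝ)) (T:ℝ), ← h2]
    apply intervalIntegral.integral_congr
    intro u _
    show G (u + y * x') * G (u + y * x) = G (u + y * x') * G (u + y * x' + y * ((x:ℝ) - x'))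
    congr 2
    ring
  have hFii : ∀ a b : ℝ, IntervalIntegrable F volume a b := by
    intro a b
    have := IntervalIntegrable.sum (μ := volume) (a := a) (b := b) (range N)
      (f := fun (x:ℕ) (u:ℝ) => k x * G (u + y * x))
      (fun x _ => (hGii (y * x) a b).const_mul (k x))
    refine this.congr ?_
    intro u _
    simp [hF]
  have hFint : ∫ u in (0:ℝ)..T, F u = T * mu g := by
    simp only [hF]
    rw [intervalIntegral.integral_finsetSum]
    · simp only [intervalIntegral.integral_const_mul, hshift]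
      rw [← sum_mul, hk, one_mul]
    · intro x _
      exact (hGii (y * x) _ _).const_mul (k x)
  have hFsq : ∀ u, F u ^ 2 = ∑ x ∈ range N, ∑ x' ∈ range N, k x * k x' * (G (u + y * x') * G (u + y * x)) := by
    intro u
    simp only [hF]
    rw [sq, sum_mul_sum]
    apply sum_congr rfl
    intro x _
    apply sum_congr rfl
    intro x' _
    ring
  have hF2ii : ∀ a b : ℝ, IntervalIntegrable (fun u => F u ^ 2) volume a b := by
    intro a b
    have := IntervalIntegrable.sum (μ := volume) (a := a) (b := b) (range N)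
      (f := fun (x:ℕ) (u:ℝ) => ∑ x' ∈ range N, k x * k x' * (G (u + y * x') * G (u + y * x)))
      (fun x _ => by
        have h2 := IntervalIntegrable.sum (μ := volume) (a := a) (b := b) (range N)
          (f := fun (x':ℕ) (u:ℝ) => k x * k x' * (G (u + y * x') * G (u + y * x)))
          (fun x' _ => (hGGii (y * x') (y * x) a b).const_mul (k x * k x'))
        refine h2.congr ?_
        intro u _
        simp)
    refine this.congr ?_
    intro u _
    simp only [Finset.sum_apply]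
    rw [hFsq]
  have hF2int : ∫ u in (0:ℝ)..T, F u ^ 2 =
      T * ∑ x ∈ range N, ∑ x' ∈ range N, k x * k x' * CV g T om V (y * ((x:ℝ) - x')) := by
    simp only [hFsq]
    rw [intervalIntegral.integral_finsetSum, mul_sum]
    · apply sum_congr rfl
      intro x _
      rw [intervalIntegral.integral_finsetSum, mul_sum]
      · apply sum_congr rfl
        intro x' _
        rw [intervalIntegral.integral_const_mul, hcorr]
        ring
      · intro x' _
        exact (hGGii (y * x') (y * x) _ _).const_mul (k x * k x')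
    · intro x _
      have h2 := IntervalIntegrable.sum (μ := volume) (a := 0) (b := (T:ℝ)) (range N)
        (f := fun (x':ℕ) (u:ℝ) => k x * k x' * (G (u + y * x') * G (u + y * x)))
        (fun x' _ => (hGGii (y * x') (y * x) _ _).const_mul (k x * k x'))
      refine h2.congr ?_
      intro u _
      simp
  have hnn : 0 ≤ ∫ u in (0:ℝ)..T, (F u - mu g) ^ 2 :=
    intervalIntegral.integral_nonneg hT'.le fun u _ => sq_nonneg _
  have hexp : ∫ u in (0:ℝ)..T, (F u - mu g) ^ 2 =
      (∫ u in (0:ℝ)..T, F u ^ 2) - 2 * mu g * (∫ u in (0:ℝ)..T, F u) + T * mu g ^ 2 := by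
    have e : ∀ u, (F u - mu g) ^ 2 = F u ^ 2 - 2 * mu g * F u + mu g ^ 2 := fun u => by ring
    simp only [e]
    rw [intervalIntegral.integral_add, intervalIntegral.integral_sub, intervalIntegral.integral_const_mul,
      intervalIntegral.integral_const]
    · simp
    · exact hF2ii _ _
    · exact (hFii _ _).const_mul _
    · exact (hF2ii _ _).sub ((hFii _ _).const_mul _)
    · exact intervalIntegrable_const
  rw [hexp, hF2int, hFint] at hnn
  have h9 : 0 ≤ T * ((∑ x ∈ range N, ∑ x' ∈ range N, k x * k x' * CV g T om V (y * ((x:ℝ) - x')))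
      - mu g ^ 2) := by
    nlinarith
  have := nonneg_of_mul_nonneg_right h9 hT'
  linarith

/-- row F1T -/
theorem f1t : F1TStmt := by
  intro g q t t1 w kap C1 C2 bet om k hq ht1 hg hkap hC1 hom hsum hper hreg hkb hbet hC2 hk0 hk1 hP
  have hT : 0 < q ^ t := by positivity
  have hg1 : 1 ≤ g := by omega
  have hq1 : (1:ℝ) ≤ q := by exact_mod_cast (by omega : 1 ≤ q)
  have hq2 : (2:ℝ) ≤ q := by exact_mod_cast hq
  have hmu0 := mu_nonneg hg1
  have hmu1 := mu_le_one g
  have hT' : (0:ℝ) < ((q ^ t : ℕ):ℝ) := by exact_mod_cast hT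
  have hcont : ∀ V, Continuous (CV g (q ^ t) om V) := f1c g (q ^ t) hT om
  have hcontd : ∀ V (d : ℝ), Continuous fun y : ℝ => CV g (q ^ t) om V (y * d) := fun V d =>
    (hcont V).comp (by fun_prop)
  have hcontF : Continuous (F1f g w k (q ^ t) om) := by
    unfold F1f
    refine continuous_const.mul (continuous_finsetSum _ fun V _ => ?_)
    refine Continuous.sub (continuous_finsetSum _ fun x _ => continuous_finsetSum _ fun x' _ => ?_)
      continuous_const
    exact continuous_const.mul (hcontd V _)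
  have hsum' : ∀ V < q ^ t, ∑ a ∈ range (q ^ t), om V a = ((q ^ t : ℕ):ℝ) := by
    intro V hV; push_cast; exact hsum V hV
  refine ⟨hcontF, ?_, ?_⟩
  · intro y
    unfold F1f
    refine mul_nonneg (div_nonneg hmu0 hT'.le) (sum_nonneg fun V hV => ?_)
    have := CV_pos hg1 hT om V (hsum' V (mem_range.1 hV)) k (2 ^ w) hk1 y
    linarith
  · set S : ℝ := (q:ℝ) ^ (t - t1) with hSdef
    have hS1 : 1 ≤ S := one_le_pow₀ hq1
    have hS0 : 0 < S := by linarith
    have hw0 : (0:ℝ) < 2 ^ w := by positivity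
    -- pair counts
    have hPR : ∀ R : ℝ, 1 ≤ R → ∑ x ∈ range (2 ^ w), ∑ x' ∈ range (2 ^ w),
        k x * k x' * idc |(x:ℝ) - x'| R ≤ C2 * (R / 2 ^ w) ^ bet := by
      intro R hR
      by_cases hRw : R ≤ 2 ^ w
      · refine le_trans (le_of_eq ?_) (hP R hR hRw)
        apply sum_congr rfl
        intro x _
        apply sum_congr rfl
        intro x' _
        unfold idc
        split_ifs <;> simp
      · have h1 : ∑ x ∈ range (2 ^ w), ∑ x' ∈ range (2 ^ w), k x * k x' * idc |(x:ℝ) - x'| R ≤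
            ∑ x ∈ range (2 ^ w), ∑ x' ∈ range (2 ^ w), k x * k x' := by
          apply sum_le_sum
          intro x _
          apply sum_le_sum
          intro x' _
          have h2 : idc |(x:ℝ) - x'| R ≤ 1 := by unfold idc; split_ifs <;> norm_num
          have h3 : 0 ≤ k x * k x' := mul_nonneg (hk0 _) (hk0 _)
          calc k x * k x' * idc |(x:ℝ) - x'| R ≤ k x * k x' * 1 :=
                mul_le_mul_of_nonneg_left h2 h3
            _ = k x * k x' := mul_one _
        rw [← sum_mul_sum, hk1, one_mul] at h1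
        refine h1.trans ?_
        have h4 : (1:ℝ) ≤ (R / 2 ^ w) ^ bet := by
          apply Real.one_le_rpow _ (by linarith)
          rw [le_div_iff₀ hw0]; linarith [not_le.1 hRw]
        nlinarith
    -- number of dyadic scales below S
    obtain ⟨J, hJ1, hJ2⟩ : ∃ J : ℕ, (∀ j < J, (2:ℝ) ^ j < S) ∧ (∀ j, (2:ℝ) ^ j < S → j < J) := by
      refine ⟨Nat.clog 2 (q ^ (t - t1)), ?_, ?_⟩
      · intro j hj
        have := (Nat.lt_clog_iff_pow_lt (b := 2) (by norm_num)).1 hj
        rw [hSdef]; exact_mod_cast this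
      · intro j hj
        rw [hSdef] at hj
        exact (Nat.lt_clog_iff_pow_lt (b := 2) (by norm_num)).2 (by exact_mod_cast hj)
    -- bound for one V
    have hV : ∀ V ∈ range (q ^ t), ∑ x ∈ range (2 ^ w), ∑ x' ∈ range (2 ^ w),
        k x * k x' * (∫ y in (0:ℝ)..1, CV g (q ^ t) om V (y * ((x:ℝ) - x'))) - mu g ^ 2 ≤
        30 * q / (bet - kap) * C1 * C2 * (S / 2 ^ w) ^ bet := by
      intro V hV
      obtain ⟨hA0, hA1, hA2⟩ := f1a g q t t1 kap C1 om hq ht1 hg hkap hC1 hom hsum hper hreg V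
        (mem_range.1 hV)
      rw [← hSdef] at hA0 hA1 hA2
      have hpt : ∀ x ∈ range (2 ^ w), ∀ x' ∈ range (2 ^ w),
          (∫ y in (0:ℝ)..1, CV g (q ^ t) om V (y * ((x:ℝ) - x'))) - mu g ^ 2 ≤
          C1 * S ^ kap * idc |(x:ℝ) - x'| 1 +
          ∑ j ∈ range J, (3 * C1 * (q:ℝ) ^ kap * (S / 2 ^ j) ^ kap) * idc |(x:ℝ) - x'| (2 ^ (j + 1)) +
          ∑ j ∈ range w, (1 / 2 ^ j) * idc |(x:ℝ) - x'| (2 ^ (j + 1) * S) := by
        intro x hx x' hx'
        have hD : ∃ D : ℕ, |(x:ℝ) - x'| = D ∧ D < 2 ^ w := by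
          rw [mem_range] at hx hx'
          rcases le_total x x' with h | h
          · refine ⟨x' - x, ?_, by omega⟩
            rw [Nat.cast_sub h, abs_sub_comm]
            exact abs_of_nonneg (by have : (x:ℝ) ≤ x' := by exact_mod_cast h
                                    linarith)
          · refine ⟨x - x', ?_, by omega⟩
            rw [Nat.cast_sub h]
            exact abs_of_nonneg (by have : (x':ℝ) ≤ x := by exact_mod_cast h
                                    linarith)
        obtain ⟨D, hDe, hDw⟩ := hD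
        have hI : (∫ y in (0:ℝ)..1, CV g (q ^ t) om V (y * ((x:ℝ) - x'))) =
            ∫ y in (0:ℝ)..1, CV g (q ^ t) om V (y * (D:ℝ)) := by
          apply intervalIntegral.integral_congr
          intro y _
          show CV g (q ^ t) om V (y * ((x:ℝ) - x')) = CV g (q ^ t) om V (y * (D:ℝ))
          rw [CV_abs, hDe]
        rw [hI, hDe]
        have hs1 : 0 ≤ ∑ j ∈ range J, (3 * C1 * (q:ℝ) ^ kap * (S / 2 ^ j) ^ kap) *
            idc (D:ℝ) (2 ^ (j + 1)) := by
          apply sum_nonneg; intro j _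
          exact mul_nonneg (by positivity) (idc_nonneg _ _)
        have hs2 : 0 ≤ ∑ j ∈ range w, (1 / 2 ^ j) * idc (D:ℝ) (2 ^ (j + 1) * S) := by
          apply sum_nonneg; intro j _
          exact mul_nonneg (by positivity) (idc_nonneg _ _)
        have hs0 : 0 ≤ C1 * S ^ kap * idc (D:ℝ) 1 :=
          mul_nonneg (by positivity) (idc_nonneg _ _)
        rcases Nat.eq_zero_or_pos D with h0 | hpos
        · subst h0
          have e : ∫ y in (0:ℝ)..1, CV g (q ^ t) om V (y * ((0:ℕ):ℝ)) = CV g (q ^ t) om V 0 := by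
            simp
          rw [e]
          have e2 : idc ((0:ℕ):ℝ) 1 = 1 := by unfold idc; simp
          rw [e2, mul_one]
          nlinarith [sq_nonneg (mu g)]
        · have hD1 : (1:ℝ) ≤ D := by exact_mod_cast hpos
          have hD0 : (0:ℝ) < D := by linarith
          by_cases hDS : (D:ℝ) < S
          · have h1 := hA1 D hD1 hDS
            obtain ⟨j, hj1, hj2⟩ : ∃ j : ℕ, (2:ℝ) ^ j ≤ D ∧ (D:ℝ) < (2:ℝ) ^ (j + 1) :=
              exists_nat_pow_near hD1 (by norm_num)
            have hjJ : j < J := hJ2 j (by linarith)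
            have h2 : (3 * C1 * (q:ℝ) ^ kap * (S / 2 ^ j) ^ kap) * idc (D:ℝ) (2 ^ (j + 1)) ≤
                ∑ j ∈ range J, (3 * C1 * (q:ℝ) ^ kap * (S / 2 ^ j) ^ kap) *
                  idc (D:ℝ) (2 ^ (j + 1)) :=
              single_le_sum (f := fun j => (3 * C1 * (q:ℝ) ^ kap * (S / 2 ^ j) ^ kap) *
                  idc (D:ℝ) (2 ^ (j + 1)))
                (fun j _ => mul_nonneg (by positivity) (idc_nonneg _ _)) (mem_range.2 hjJ)
            have h3 : idc (D:ℝ) (2 ^ (j + 1)) = 1 := by unfold idc; rw [if_pos hj2]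
            rw [h3, mul_one] at h2
            have h4 : (S / D) ^ kap ≤ (S / 2 ^ j) ^ kap := by
              apply Real.rpow_le_rpow (by positivity) _ hkap
              exact div_le_div_of_nonneg_left hS0.le (by positivity) hj1
            have h5 : 3 * C1 * (q:ℝ) ^ kap * (S / D) ^ kap ≤ 3 * C1 * (q:ℝ) ^ kap * (S / 2 ^ j) ^ kap :=
              mul_le_mul_of_nonneg_left h4 (by positivity)
            nlinarith [sq_nonneg (mu g)]
          · have hDS' : S ≤ D := not_lt.1 hDS
            have h1 := hA2 D hDS'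
            have hDS1 : 1 ≤ (D:ℝ) / S := by rw [le_div_iff₀ hS0]; linarith
            obtain ⟨j, hj1, hj2⟩ : ∃ j : ℕ, (2:ℝ) ^ j ≤ D / S ∧ (D:ℝ) / S < (2:ℝ) ^ (j + 1) :=
              exists_nat_pow_near hDS1 (by norm_num)
            have hjw : j < w := by
              by_contra hcon
              have h2 : (2:ℝ) ^ w ≤ 2 ^ j := pow_le_pow_right₀ (by norm_num) (not_lt.1 hcon)
              have h3 : (D:ℝ) < 2 ^ w := by exact_mod_cast hDw
              have h4 : (D:ℝ) / S ≤ D := div_le_self hD0.le hS1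
              linarith
            have h2 : (1 / 2 ^ j) * idc (D:ℝ) (2 ^ (j + 1) * S) ≤
                ∑ j ∈ range w, (1 / 2 ^ j) * idc (D:ℝ) (2 ^ (j + 1) * S) :=
              single_le_sum (f := fun j => (1 / 2 ^ j) * idc (D:ℝ) (2 ^ (j + 1) * S))
                (fun j _ => mul_nonneg (by positivity) (idc_nonneg _ _)) (mem_range.2 hjw)
            have h3 : idc (D:ℝ) (2 ^ (j + 1) * S) = 1 := by
              unfold idc; rw [if_pos]; rwa [div_lt_iff₀ hS0] at hj2
            rw [h3, mul_one] at h2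
            have h4 : S / D ≤ 1 / 2 ^ j := by
              rw [div_le_div_iff₀ hD0 (by positivity), one_mul]
              rw [le_div_iff₀ hS0] at hj1
              linarith
            have h5 : mu g ^ 2 ≤ 1 := by nlinarith
            have h6 : 0 ≤ S / D := by positivity
            have h7 : mu g ^ 2 * (1 + S / D) - mu g ^ 2 ≤ S / D := by nlinarith
            linarith
      -- sum over pairs
      have hmu : ∑ x ∈ range (2 ^ w), ∑ x' ∈ range (2 ^ w), k x * k x' * mu g ^ 2 = mu g ^ 2 := by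
        have : ∀ x ∈ range (2 ^ w), ∑ x' ∈ range (2 ^ w), k x * k x' * mu g ^ 2 = k x * mu g ^ 2 := by
          intro x _
          rw [← sum_mul, ← mul_sum, hk1, mul_one]
        rw [sum_congr rfl this, ← sum_mul, hk1, one_mul]
      have hstep : ∑ x ∈ range (2 ^ w), ∑ x' ∈ range (2 ^ w),
          k x * k x' * (∫ y in (0:ℝ)..1, CV g (q ^ t) om V (y * ((x:ℝ) - x'))) - mu g ^ 2 ≤
          ∑ x ∈ range (2 ^ w), ∑ x' ∈ range (2 ^ w), k x * k x' *
          (C1 * S ^ kap * idc |(x:ℝ) - x'| 1 +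
          ∑ j ∈ range J, (3 * C1 * (q:ℝ) ^ kap * (S / 2 ^ j) ^ kap) * idc |(x:ℝ) - x'| (2 ^ (j + 1)) +
          ∑ j ∈ range w, (1 / 2 ^ j) * idc |(x:ℝ) - x'| (2 ^ (j + 1) * S)) := by
        rw [← hmu, ← sum_sub_distrib]
        apply sum_le_sum
        intro x hx
        rw [← sum_sub_distrib]
        apply sum_le_sum
        intro x' hx'
        rw [← mul_sub]
        exact mul_le_mul_of_nonneg_left (hpt x hx x' hx') (mul_nonneg (hk0 _) (hk0 _))
      refine hstep.trans ?_
      have hsplit : ∑ x ∈ range (2 ^ w), ∑ x' ∈ range (2 ^ w), k x * k x' *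
          (C1 * S ^ kap * idc |(x:ℝ) - x'| 1 +
          ∑ j ∈ range J, (3 * C1 * (q:ℝ) ^ kap * (S / 2 ^ j) ^ kap) * idc |(x:ℝ) - x'| (2 ^ (j + 1)) +
          ∑ j ∈ range w, (1 / 2 ^ j) * idc |(x:ℝ) - x'| (2 ^ (j + 1) * S)) =
          C1 * S ^ kap * (∑ x ∈ range (2 ^ w), ∑ x' ∈ range (2 ^ w), k x * k x' * idc |(x:ℝ) - x'| 1) +
          ∑ x ∈ range (2 ^ w), ∑ x' ∈ range (2 ^ w), k x * k x' *
            (∑ j ∈ range J, (3 * C1 * (q:ℝ) ^ kap * (S / 2 ^ j) ^ kap) *
              idc |(x:ℝ) - x'| (2 ^ (j + 1))) +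
          ∑ x ∈ range (2 ^ w), ∑ x' ∈ range (2 ^ w), k x * k x' *
            (∑ j ∈ range w, (1 / 2 ^ j) * idc |(x:ℝ) - x'| (2 ^ (j + 1) * S)) := by
        rw [mul_sum, ← sum_add_distrib, ← sum_add_distrib]
        apply sum_congr rfl
        intro x _
        rw [mul_sum, ← sum_add_distrib, ← sum_add_distrib]
        apply sum_congr rfl
        intro x' _
        ring
      rw [hsplit]
      refine le_trans (add_le_add (add_le_add ?_ ?_) ?_)
        (f1t_num (q := (q:ℝ)) (w := w) hq2 hS1 hJ1 hkap hkb hbet hC1 hC2)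
      · exact mul_le_mul_of_nonneg_left (hPR 1 le_rfl) (by positivity)
      · exact pairsum (range J) (fun j => 3 * C1 * (q:ℝ) ^ kap * (S / 2 ^ j) ^ kap)
          (fun j => 2 ^ (j + 1)) (fun j => C2 * (2 ^ (j + 1) / 2 ^ w) ^ bet) k (2 ^ w)
          (fun j _ => by positivity)
          (fun j _ => hPR _ (one_le_pow₀ (by norm_num)))
      · exact pairsum (range w) (fun j => 1 / 2 ^ j)
          (fun j => 2 ^ (j + 1) * S) (fun j => C2 * ((2 ^ (j + 1) * S) / 2 ^ w) ^ bet) k (2 ^ w)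
          (fun j _ => by positivity)
          (fun j _ => hPR _ (by
            have : (1:ℝ) ≤ 2 ^ (j + 1) := one_le_pow₀ (by norm_num)
            nlinarith))
    -- integrate
    have hint : ∫ y in (0:ℝ)..1, F1f g w k (q ^ t) om y = mu g / ((q ^ t : ℕ):ℝ) *
        ∑ V ∈ range (q ^ t), (∑ x ∈ range (2 ^ w), ∑ x' ∈ range (2 ^ w),
          k x * k x' * (∫ y in (0:ℝ)..1, CV g (q ^ t) om V (y * ((x:ℝ) - x'))) - mu g ^ 2) := by
      unfold F1f
      rw [intervalIntegral.integral_const_mul]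
      congr 1
      rw [intervalIntegral.integral_finsetSum]
      · apply sum_congr rfl
        intro V _
        rw [intervalIntegral.integral_sub, intervalIntegral.integral_const]
        · rw [intervalIntegral.integral_finsetSum]
          · simp only [sub_zero, one_smul]
            congr 1
            apply sum_congr rfl
            intro x _
            rw [intervalIntegral.integral_finsetSum]
            · apply sum_congr rfl
              intro x' _
              rw [intervalIntegral.integral_const_mul]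
            · intro x' _
              exact (continuous_const.mul (hcontd V _)).intervalIntegrable _ _
          · intro x _
            exact (continuous_finsetSum _ fun x' _ =>
              continuous_const.mul (hcontd V _)).intervalIntegrable _ _
        · exact (continuous_finsetSum _ fun x _ => continuous_finsetSum _ fun x' _ =>
              continuous_const.mul (hcontd V _)).intervalIntegrable _ _
        · exact intervalIntegrable_const
      · intro V _
        exact (Continuous.sub (continuous_finsetSum _ fun x _ => continuous_finsetSum _ fun x' _ =>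
              continuous_const.mul (hcontd V _)) continuous_const).intervalIntegrable _ _
    rw [hint]
    have hfin := sum_le_sum hV
    rw [sum_const, card_range, nsmul_eq_mul] at hfin
    have hRHS : 0 ≤ 30 * q / (bet - kap) * C1 * C2 * (S / 2 ^ w) ^ bet := by
      have : 0 < bet - kap := by linarith
      positivity
    calc mu g / ((q ^ t : ℕ):ℝ) * ∑ V ∈ range (q ^ t), (∑ x ∈ range (2 ^ w), ∑ x' ∈ range (2 ^ w),
          k x * k x' * (∫ y in (0:ℝ)..1, CV g (q ^ t) om V (y * ((x:ℝ) - x'))) - mu g ^ 2)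
        ≤ mu g / ((q ^ t : ℕ):ℝ) * (((q ^ t : ℕ):ℝ) *
          (30 * q / (bet - kap) * C1 * C2 * (S / 2 ^ w) ^ bet)) :=
          mul_le_mul_of_nonneg_left hfin (div_nonneg hmu0 hT'.le)
      _ = mu g * (30 * q / (bet - kap) * C1 * C2 * (S / 2 ^ w) ^ bet) := by
          field_simp
      _ ≤ 1 * (30 * q / (bet - kap) * C1 * C2 * (S / 2 ^ w) ^ bet) :=
          mul_le_mul_of_nonneg_right hmu1 hRHS
      _ = 30 * q / (bet - kap) * C1 * C2 * (S / 2 ^ w) ^ bet := one_mul _

end Pool.FD
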